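import Pool.Agent.Helper30.KC.GoalsT
import Pool.Agent.Helper25.KC.EX

/-!
# Project KT, packet EX2: many far away points of the shortest cycle
-/

set_option autoImplicit false

namespace Pool.Agent.Helper32.KT

open scoped Classical
open Finset
open Pool.Agent.Helper94.KC
open Pool.Agent.Helper30.KC

theorem pEX2 (hSH : StmtSH) : StmtEX2 := by
  intro V _ T hS x₀ w hw Z n K M
  have hcard := Pool.Agent.Helper25.KC.supp_card hw.cyc
  have hball := fun h K => Pool.Agent.Helper25.KC.ball_card hSH hS hw h K
  induction n with
  | zero =>
      intro _
      exact ⟨fun j => j.elim0, fun j => j.elim0, fun j => j.elim0, fun j => j.elim0⟩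
  | succ n ih =>
      intro hlen
      obtain ⟨x, hx1, hx2, hx3⟩ := ih (by
        have : n * (4 * M + 1) ≤ (n + 1) * (4 * M + 1) := Nat.mul_le_mul_right _ (Nat.le_succ n)
        omega)
      set B1 := Z.biUnion (fun h => w.support.toFinset.filter (fun v => (sk T).dist h v ≤ K))
        with hB1
      set B2 := (univ : Finset (Fin n)).biUnion
        (fun j => w.support.toFinset.filter (fun v => (sk T).dist (x j) v ≤ M)) with hB2
      have c1 : B1.card ≤ Z.card * (4 * K + 1) :=
        Finset.card_biUnion_le_card_mul _ _ _ (fun h _ => hball h K)
      have c2 : B2.card ≤ n * (4 * M + 1) := by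
        have h1 := Finset.card_biUnion_le_card_mul (univ : Finset (Fin n))
          (fun j => w.support.toFinset.filter (fun v => (sk T).dist (x j) v ≤ M)) (4 * M + 1)
          (fun j _ => hball (x j) M)
        rwa [Finset.card_univ, Fintype.card_fin] at h1
      have c3 : (B1 ∪ B2).card < w.support.toFinset.card := by
        rw [hcard]
        have h1 := Finset.card_union_le B1 B2
        have h2 : (n + 1) * (4 * M + 1) = n * (4 * M + 1) + (4 * M + 1) := by ring
        omega
      obtain ⟨v, hv, hvB⟩ := Finset.exists_mem_notMem_of_card_lt_card c3
      rw [Finset.mem_union, not_or] at hvB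
      obtain ⟨hv1, hv2⟩ := hvB
      have g1 : ∀ h ∈ Z, K < (sk T).dist v h := by
        intro h hh
        by_contra hcon
        push Not at hcon
        apply hv1
        rw [hB1, Finset.mem_biUnion]
        refine ⟨h, hh, ?_⟩
        rw [Finset.mem_filter, SimpleGraph.dist_comm]
        exact ⟨hv, hcon⟩
      have g2 : ∀ j, M < (sk T).dist (x j) v := by
        intro j
        by_contra hcon
        push Not at hcon
        apply hv2
        rw [hB2, Finset.mem_biUnion]
        refine ⟨j, Finset.mem_univ _, ?_⟩
        rw [Finset.mem_filter]
        exact ⟨hv, hcon⟩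
      refine ⟨Fin.cons v x, ?_, ?_, ?_⟩
      · intro j
        refine Fin.cases ?_ (fun j => ?_) j
        · exact List.mem_toFinset.1 hv
        · rw [Fin.cons_succ]; exact hx1 j
      · intro j k
        refine Fin.cases ?_ (fun j => ?_) j
        · refine Fin.cases ?_ (fun k => ?_) k
          · intro h; exact absurd rfl h
          · intro _
            rw [Fin.cons_zero, Fin.cons_succ, SimpleGraph.dist_comm]
            exact g2 k
        · refine Fin.cases ?_ (fun k => ?_) k
          · intro _
            rw [Fin.cons_zero, Fin.cons_succ]
            exact g2 j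
          · intro h
            rw [Fin.cons_succ, Fin.cons_succ]
            exact hx2 j k (fun e => h (by rw [e]))
      · intro j
        refine Fin.cases ?_ (fun j => ?_) j
        · rw [Fin.cons_zero]; exact g1
        · rw [Fin.cons_succ]; exact hx3 j

end Pool.Agent.Helper32.KT
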